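import Pool.Agent.Helper20.RE.Stm

/-!
# Package K: entropies of independent sums
-/

set_option autoImplicit false
set_option linter.unusedSectionVars false

open Finset
open scoped Classical

namespace Pool.Agent.Helper47.RE
open Pool.Agent.W904.AK Pool.Agent.Helper20.RE

section
variable {Ω Ω' Ω'' : Type} [Fintype Ω] [Fintype Ω'] [Fintype Ω'']

lemma prodLaw_eq {p : Ω → ℝ} (hp : IsLaw p) (q : Ω' → ℝ) (z : Ω × Ω') :
    prodLaw p q z = p z.1 * q z.2 := by
  unfold prodLaw glue
  rw [if_pos rfl, im_unit hp, div_one]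

/-- The image of a product law under a map of the first factor. -/
lemma im_prod_map {p : Ω → ℝ} (hp : IsLaw p) (q : Ω' → ℝ) (φ : Ω → Ω'') :
    im (prodLaw p q) (fun z : Ω × Ω' => (φ z.1, z.2)) = prodLaw (im p φ) q := by
  funext ab
  obtain ⟨a, b⟩ := ab
  rw [prodLaw_eq (hp.im φ), im_eq_sum, Fintype.sum_prod_type, im_eq_sum, Finset.sum_mul]
  refine Finset.sum_congr rfl fun x _ => ?_
  by_cases h : φ x = a
  · rw [if_pos h, Finset.sum_eq_single b]
    · dsimp only
      rw [if_pos (by rw [h]), prodLaw_eq hp]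
    · intro y _ hy
      dsimp only
      rw [if_neg]
      intro h'
      exact hy (congrArg Prod.snd h')
    · intro h'
      exact absurd (Finset.mem_univ b) h'
  · rw [if_neg h, zero_mul]
    refine Finset.sum_eq_zero fun y _ => ?_
    dsimp only
    rw [if_neg]
    intro h'
    exact h (congrArg Prod.fst h')

lemma im_swap {p : Ω → ℝ} (hp : IsLaw p) {q : Ω' → ℝ} (hq : IsLaw q) :
    im (prodLaw p q) (fun z : Ω × Ω' => (z.2, z.1)) = prodLaw q p := by
  funext ab
  obtain ⟨a, b⟩ := ab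
  rw [prodLaw_eq hq, im_eq_sum, Finset.sum_eq_single (b, a)]
  · rw [if_pos rfl, prodLaw_eq hp]
    exact mul_comm _ _
  · rintro ⟨x, y⟩ _ hy
    rw [if_neg]
    intro h'
    apply hy
    have h1 : y = a := congrArg Prod.fst h'
    have h2 : x = b := congrArg Prod.snd h'
    rw [h1, h2]
  · intro h'
    exact absurd (Finset.mem_univ _) h'

/-- Marginalisation in the first factor. -/
lemma hh_map {p : Ω → ℝ} (hp : IsLaw p) (q : Ω' → ℝ) {p₁ : Ω'' → ℝ} {φ : Ω → Ω''}
    (h : im p φ = p₁) (f : Ω'' → ℚ) (g : Ω' → ℚ) :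
    hh p (fun x => f (φ x)) q g = hh p₁ f q g := by
  have := im_prod_map hp q φ
  rw [h] at this
  exact H_map this (fun z : Ω'' × Ω' => f z.1 + g z.2)

lemma H_fst {p : Ω → ℝ} (hp : IsLaw p) {q : Ω' → ℝ} (hq : IsLaw q) {α : Type*} (u : Ω → α) :
    H (prodLaw p q) (fun z => u z.1) = H p u := H_glue_fst hp (prod_ok hp hq) u

lemma H_snd {p : Ω → ℝ} (hp : IsLaw p) {q : Ω' → ℝ} (hq : IsLaw q) {α : Type*} (u : Ω' → α) :
    H (prodLaw p q) (fun z => u z.2) = H q u := H_glue_snd hq (prod_ok hp hq) u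

lemma im_fst {p : Ω → ℝ} (hp : IsLaw p) {q : Ω' → ℝ} (hq : IsLaw q) :
    im (prodLaw p q) Prod.fst = p := glue_fst hp (prod_ok hp hq)

lemma im_snd {p : Ω → ℝ} (hp : IsLaw p) {q : Ω' → ℝ} (hq : IsLaw q) :
    im (prodLaw p q) Prod.snd = q := glue_snd hq (prod_ok hp hq)

lemma H_neg (p : Ω → ℝ) (f : Ω → ℚ) : H p (fun x => -f x) = H p f :=
  H_comp_injective p f (φ := fun t : ℚ => -t) neg_injective

end

theorem comm : S_comm := by
  intro Ω Ω' _ _ p f q g hp hq
  have h := H_map (im_swap hp hq) (fun z : Ω' × Ω => g z.1 + f z.2)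
  unfold hh
  rw [← h]
  congr 1
  funext z
  exact add_comm _ _

theorem smul : S_smul := by
  intro Ω Ω' _ _ p f q g c hc
  unfold hh
  rw [← H_comp_injective (prodLaw p q) (fun z : Ω × Ω' => f z.1 + g z.2)
    (φ := fun t : ℚ => c * t) (mul_right_injective₀ hc)]
  congr 1
  funext z
  exact (mul_add _ _ _).symm

theorem mon : S_mon := by
  intro Ω Ω' _ _ p f q g hp hq
  have hl := prod_law hp hq
  have e := H_prod hp hq f g
  have h1 := subadd hl (f := fun z : Ω × Ω' => f z.1 + g z.2) (g := fun z => g z.2)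
    (k := fun z => (f z.1, g z.2)) (by
      intro z z' _ _ h
      have ha : f z.1 + g z.2 = f z'.1 + g z'.2 := congrArg Prod.fst h
      have hb : g z.2 = g z'.2 := congrArg Prod.snd h
      have hc : f z.1 = f z'.1 := by linarith
      exact Prod.ext hc hb)
  have h2 := subadd hl (f := fun z : Ω × Ω' => f z.1 + g z.2) (g := fun z => f z.1)
    (k := fun z => (f z.1, g z.2)) (by
      intro z z' _ _ h
      have ha : f z.1 + g z.2 = f z'.1 + g z'.2 := congrArg Prod.fst h
      have hb : f z.1 = f z'.1 := congrArg Prod.snd h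
      have hc : g z.2 = g z'.2 := by linarith
      exact Prod.ext hb hc)
  rw [H_snd hp hq g] at h1
  rw [H_fst hp hq f] at h2
  unfold hh
  constructor <;> linarith

theorem tri : S_tri := by
  intro Ω Ω' _ _ p U V q Z hp hq
  have hl := prod_law hp hq
  have h1 := submod' hl (f := fun z : Ω × Ω' => (U z.1, V z.1))
    (g := fun z => (U z.1 + -Z z.2, V z.1 + -Z z.2)) (h := fun z => U z.1 - V z.1)
    (k := fun z => ((U z.1, V z.1), Z z.2)) (by
      intro z z' _ _ h
      have ha : U z.1 = U z'.1 := congrArg Prod.fst h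
      have hb : V z.1 = V z'.1 := congrArg Prod.snd h
      show U z.1 - V z.1 = U z'.1 - V z'.1
      rw [ha, hb]) (by
      intro z z' _ _ h
      have ha : U z.1 + -Z z.2 = U z'.1 + -Z z'.2 := congrArg Prod.fst h
      have hb : V z.1 + -Z z.2 = V z'.1 + -Z z'.2 := congrArg Prod.snd h
      show U z.1 - V z.1 = U z'.1 - V z'.1
      linarith) (by
      intro z z' _ _ h
      have h1 := congrArg Prod.fst h
      have h2 := congrArg Prod.snd h
      have ha : U z.1 = U z'.1 := congrArg Prod.fst h1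
      have hb : V z.1 = V z'.1 := congrArg Prod.snd h1
      have hc : U z.1 + -Z z.2 = U z'.1 + -Z z'.2 := congrArg Prod.fst h2
      have hd : Z z.2 = Z z'.2 := by linarith
      exact Prod.ext (Prod.ext ha hb) hd)
  have h2 := subadd hl (f := fun z : Ω × Ω' => U z.1 + -Z z.2) (g := fun z => V z.1 + -Z z.2)
    (k := fun z => (U z.1 + -Z z.2, V z.1 + -Z z.2)) (Det.refl _ _)
  have e1 := H_prod hp hq (fun x => (U x, V x)) Z
  have e2 := H_fst hp hq (fun x => (U x, V x))
  have e3 := H_fst hp hq (fun x => U x - V x)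
  unfold hh
  linarith

theorem tri3 : S_tri3 := by
  intro Ω Ω' Ω'' _ _ _ p f q g s Z hp hq hs
  have h := tri (Ω × Ω') Ω'' (prodLaw p q) (fun w => f w.1) (fun w => g w.2) s Z
    (prod_law hp hq) hs
  have e1 := hh_map (prod_law hp hq) s (im_fst hp hq) f (fun y => -Z y)
  have e2 := hh_map (prod_law hp hq) s (im_snd hp hq) g (fun y => -Z y)
  have e3 : hh p f q (fun y => -g y) = H (prodLaw p q) (fun w => f w.1 - g w.2) := by
    unfold hh
    congr 1
    funext z
    exact (sub_eq_add_neg _ _).symm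
  rw [e3]
  rw [e1, e2] at h
  exact h

/-- The inequality of Kaimanovich, Vershik and Madiman. -/
theorem kvm {Ω Ω' Ω'' : Type} [Fintype Ω] [Fintype Ω'] [Fintype Ω''] {p : Ω → ℝ} (hp : IsLaw p)
    {s : Ω' → ℝ} (hs : IsLaw s) {q : Ω'' → ℝ} (hq : IsLaw q) (f : Ω → ℚ) (h : Ω' → ℚ)
    (g : Ω'' → ℚ) :
    hh (prodLaw p s) (fun w => f w.1 + h w.2) q g + H q g ≤ hh p f q g + hh s h q g := by
  have hps := prod_law hp hs
  have hl := prod_law hps hq
  have h1 := submod' hl (f := fun z : (Ω × Ω') × Ω'' => (f z.1.1 + g z.2, h z.1.2))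
    (g := fun z => (h z.1.2 + g z.2, f z.1.1)) (h := fun z => f z.1.1 + h z.1.2 + g z.2)
    (k := fun z => ((f z.1.1, h z.1.2), g z.2)) (by
      intro z z' _ _ he
      have ha : f z.1.1 + g z.2 = f z'.1.1 + g z'.2 := congrArg Prod.fst he
      have hb : h z.1.2 = h z'.1.2 := congrArg Prod.snd he
      show f z.1.1 + h z.1.2 + g z.2 = f z'.1.1 + h z'.1.2 + g z'.2
      linarith) (by
      intro z z' _ _ he
      have ha : h z.1.2 + g z.2 = h z'.1.2 + g z'.2 := congrArg Prod.fst he
      have hb : f z.1.1 = f z'.1.1 := congrArg Prod.snd he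
      show f z.1.1 + h z.1.2 + g z.2 = f z'.1.1 + h z'.1.2 + g z'.2
      linarith) (by
      intro z z' _ _ he
      have h1 := congrArg Prod.fst he
      have h2 := congrArg Prod.snd he
      have ha : f z.1.1 + g z.2 = f z'.1.1 + g z'.2 := congrArg Prod.fst h1
      have hb : h z.1.2 = h z'.1.2 := congrArg Prod.snd h1
      have hc : f z.1.1 = f z'.1.1 := congrArg Prod.snd h2
      have hd : g z.2 = g z'.2 := by linarith
      exact Prod.ext (Prod.ext hc hb) hd)
  have h2 := subadd hl (f := fun z : (Ω × Ω') × Ω'' => f z.1.1 + g z.2) (g := fun z => h z.1.2)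
    (k := fun z => (f z.1.1 + g z.2, h z.1.2)) (Det.refl _ _)
  have h3 := subadd hl (f := fun z : (Ω × Ω') × Ω'' => h z.1.2 + g z.2) (g := fun z => f z.1.1)
    (k := fun z => (h z.1.2 + g z.2, f z.1.1)) (Det.refl _ _)
  have e1 := H_prod hps hq (fun w : Ω × Ω' => (f w.1, h w.2)) g
  have e2 := H_prod hp hs f h
  have e3 : H (prodLaw (prodLaw p s) q) (fun z => f z.1.1) = H p f := by
    rw [H_fst hps hq (fun w : Ω × Ω' => f w.1), H_fst hp hs f]
  have e4 : H (prodLaw (prodLaw p s) q) (fun z => h z.1.2) = H s h := by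
    rw [H_fst hps hq (fun w : Ω × Ω' => h w.2), H_snd hp hs h]
  have e5 : H (prodLaw (prodLaw p s) q) (fun z => f z.1.1 + g z.2) = hh p f q g :=
    hh_map hps q (im_fst hp hs) f g
  have e6 : H (prodLaw (prodLaw p s) q) (fun z => h z.1.2 + g z.2) = hh s h q g :=
    hh_map hps q (im_snd hp hs) h g
  have e7 : hh (prodLaw p s) (fun w => f w.1 + h w.2) q g =
    H (prodLaw (prodLaw p s) q) (fun z => f z.1.1 + h z.1.2 + g z.2) := rfl
  rw [e7]
  linarith

theorem sub : S_sub := by
  intro Ω Ω' _ _ p f g q z hp hq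
  have hpq := prod_law hp hq
  have h1 := tri (Ω × Ω') Ω' (prodLaw p q) (fun w => f w.1) (fun w => -g w.1 + z w.2) q z hpq hq
  have h2 := kvm hp hq hq (fun x => -g x) z (fun y => -z y)
  have e1 := hh_map hpq q (im_fst hp hq) f (fun y => -z y)
  have e2 := H_neg q z
  have e3 : hh p (fun x => f x + g x) q (fun y => -z y) =
      H (prodLaw p q) (fun w => f w.1 - (-g w.1 + z w.2)) := by
    unfold hh
    congr 1
    funext w
    ring
  rw [e3]
  rw [e1] at h1
  rw [e2] at h2
  linarith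

theorem sum2 : S_sum2 := by
  intro Ω Ω' _ _ p f q g hp hq
  have h1 := kvm hp hp hq f f g
  have h2 := (mon (Ω × Ω) Ω' (prodLaw p p) (fun w => f w.1 + f w.2) q g (prod_law hp hp) hq).1
  have e : hh p f p f = H (prodLaw p p) (fun w => f w.1 + f w.2) := rfl
  rw [e]
  linarith

end Pool.Agent.Helper47.RE
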